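import Pool.Agent.Q41.OSC.Stmts

/-! Assembly for MP_307271_an, Q1. -/

namespace Pool.Agent.Q41.OSC.Asm
open Filter Topology Pool.Agent.Q41.OSC

theorem sepUp (hL : TaskLangFam) (hC : TaskCount) (k : ℕ) (S : Finset (List Sym))
    (h1 : ∀ u ∈ S, Lang u ∧ u.length = g k) (h2 : ∀ u ∈ S, ∀ v ∈ S, u ≠ v → LDis u v) :
    S.card ≤ 8 * (g k + 1) * 9 ^ (g k) :=
  hC (g k) (P k) S (by unfold g; omega)
    (fun u hu => ⟨(h1 u hu).2, hL k u (h1 u hu).1 (h1 u hu).2⟩) h2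

/-- the homeomorphism -/
def homeo (h : TaskShift) : XX ≃ₜ XX where
  toFun := shX
  invFun := shX'
  left_inv := h.2.2.1
  right_inv := h.2.2.2
  continuous_toFun := h.1
  continuous_invFun := h.2.1

theorem main (hShift : TaskShift) (hCompact : TaskCompact) (hClosed : TaskClosed)
    (hDense : TaskDense) (hEnt : TaskEnt) (hGen : TaskGen) (hSepList : TaskSepList)
    (hSpanList : TaskSpanList) (hSpanLow : TaskSpanLow) (hLangFam : TaskLangFam)
    (hCount : TaskCount) (hGrow : TaskGrow) (hRate : TaskRate) (hLogBd : TaskLogBd) :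
    ∃ (X : Type) (_ : MetricSpace X) (_ : CompactSpace X) (F : X ≃ₜ X),
      (∃ x : X, Dense (Set.range fun m : ℕ => (⇑F)^[m] x)) ∧
      (∃ C : ℝ, ∀ ε : ℝ, 0 < ε → ∀ᶠ T : ℕ in atTop, Real.log (sep F ε T) / T ≤ C) ∧
      ∃ ε : ℝ, 0 < ε ∧
        liminf (fun T : ℕ => Real.log (span F ε T) / T) atTop <
          limsup (fun T : ℕ => Real.log (span F ε T) / T) atTop ∧
        liminf (fun T : ℕ => Real.log (sep F ε T) / T) atTop <
          limsup (fun T : ℕ => Real.log (sep F ε T) / T) atTop := by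
  haveI : CompactSpace Full := hCompact
  have hcs : CompactSpace XX := isCompact_iff_compactSpace.mp (IsClosed.isCompact hClosed)
  obtain ⟨x, hx⟩ := hDense
  haveI : Nonempty XX := ⟨x⟩
  have hb : ∀ ε : ℝ, 0 < ε → ∃ K : ℕ, ∀ T, 0 < T →
      1 ≤ span shX ε T ∧ span shX ε T ≤ sep shX ε T ∧ sep shX ε T ≤ K * 169 ^ T ∧
      (∃ S : Finset XX, S.card = sep shX ε T ∧ Separated shX ε T S) ∧
      ∃ S : Finset XX, S.card = span shX ε T ∧ Spanning shX ε T S := by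
    intro ε hε
    obtain ⟨K, hK⟩ := hEnt ε hε
    exact ⟨K, fun T hT => hGen XX shX ε T (K * 169 ^ T) hT hε fun S hS => hK T S hT hS⟩
  obtain ⟨K, hK⟩ := hb 1 one_pos
  have hg0 : ∀ k, 0 < g k := fun k => by have := hGrow.2.1 k; omega
  have hup : ∀ k, sep shX 1 (g k) ≤ 8 * (g k + 1) * 9 ^ (g k) := by
    intro k
    obtain ⟨_, _, _, ⟨S, hS, hS'⟩, _⟩ := hK (g k) (hg0 k)
    obtain ⟨S', h1, h2, h3⟩ := hSepList (g k) S (hg0 k) hS'
    rw [← hS, ← h1]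
    exact sepUp hLangFam hCount k S' h2 h3
  have hlow : ∀ k, 84 ^ (g k ^ 2) ≤ span shX 1 (2 * g k ^ 2 + g k + 2) := by
    intro k
    obtain ⟨_, _, _, _, S, hS, hS'⟩ := hK (2 * g k ^ 2 + g k + 2) (by omega)
    obtain ⟨S', h1, h2, h3⟩ := hSpanList (2 * g k ^ 2 + g k + 2) S (by omega) hS'
    rw [← hS]
    exact (hSpanLow k S' h2 h3).trans h1
  refine ⟨XX, inferInstance, hcs, homeo hShift, ⟨x, hx⟩, ⟨Real.log 169 + 1, ?_⟩, 1, one_pos, ?_, ?_⟩
  · intro ε hε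
    obtain ⟨K', hK'⟩ := hb ε hε
    exact hLogBd (fun T => sep shX ε T) K' fun T hT => (hK' T hT).2.2.1
  · refine hRate (fun T => span shX 1 T) g K hGrow.1 hGrow.2.1 (fun T hT => ?_) (fun k => ?_) hlow
    · exact ⟨(hK T hT).1, (hK T hT).2.1.trans (hK T hT).2.2.1⟩
    · exact (hK (g k) (hg0 k)).2.1.trans (hup k)
  · refine hRate (fun T => sep shX 1 T) g K hGrow.1 hGrow.2.1 (fun T hT => ?_) hup (fun k => ?_)
    · exact ⟨(hK T hT).1.trans (hK T hT).2.1, (hK T hT).2.2.1⟩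
    · exact (hlow k).trans (hK (2 * g k ^ 2 + g k + 2) (by omega)).2.1

end Pool.Agent.Q41.OSC.Asm
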