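import Pool.Agent.Q41.OSC.Defs

/-! Blueprint for MP_307271_an, Q1: the statements.  Each `TaskX` is a `Prop`; prove
`theorem main (h : TaskDep) … : TaskX` (the tasks named in `deps` may be hypotheses). -/

namespace Pool.Agent.Q41.OSC
open Filter Topology

/-- Haemers' bound.  The vectors `Φ u (j) = ∏ i, f i u (j i)`, `j : Fin m → Fin 9`, are linearly
independent, as they have a triangular (diagonal) pairing with `∏ i, g i v (j i)`
(`Finset.prod_univ_sum`/`Fintype.piFinset`); so `S.card ≤ finrank (Fin m → Fin 9) → K = 9 ^ m`. -/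
def TaskHaem : Prop :=
  ∀ (K : Type) [Field K] (α : Type) [DecidableEq α] (m : ℕ) (f g : Fin m → α → Fin 9 → K)
    (S : Finset α),
    (∀ u ∈ S, ∏ i, (∑ j, f i u j * g i u j) ≠ 0) →
    (∀ u ∈ S, ∀ v ∈ S, u ≠ v → ∏ i, (∑ j, f i u j * g i v j) = 0) → S.card ≤ 9 ^ m

/-- Words of triples, phase `true`.  Use TaskHaem over `ZMod 2` with the indicator functions
(`|u ∩ v|` mod 2 is `1` for `u = v` and `0` for `|u ∩ v| ∈ {0, 2}`). -/
def TaskA : Prop := ∀ (m : ℕ) (S : Finset (Fin m → V)),
  (∀ u ∈ S, ∀ v ∈ S, u ≠ v → ∃ i, u i ≠ v i ∧ ((u i).1 ∩ (v i).1).card ≠ 1) → S.card ≤ 9 ^ m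

/-- Words of triples, phase `false`.  Use TaskHaem over `ℚ` with `f u = 1_u`, `g v = 1_v - 1/3`
(`∑ j, f u j * g v j = |u ∩ v| - 1`). -/
def TaskB : Prop := ∀ (m : ℕ) (S : Finset (Fin m → V)),
  (∀ u ∈ S, ∀ v ∈ S, u ≠ v → ∃ i, ((u i).1 ∩ (v i).1).card = 1) → S.card ≤ 9 ^ m

/-- The same for lists (from TaskA, TaskB). -/
def TaskC : Prop := ∀ (c : Bool) (m : ℕ) (S : Finset (List V)), (∀ u ∈ S, u.length = m) →
  (∀ u ∈ S, ∀ v ∈ S, u ≠ v → LDis (W c u) (W c v)) → S.card ≤ 9 ^ m

/-- Counting in the family (from TaskC): at most `|Q| + 2 T + 1 ≤ 3 T + 1` infixes of length `T`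
of `Z T ++ Q ++ Z T`, and for each `p ≤ T` and `c` at most `9 ^ (T - p) ≤ 9 ^ T` words
`Z p ++ W c w`, and the same for `W c w ++ Z p`. -/
def TaskCount : Prop := ∀ (T : ℕ) (Q : List Sym) (S : Finset (List Sym)), Q.length ≤ T →
  (∀ u ∈ S, u.length = T ∧ Fam T Q u) → (∀ u ∈ S, ∀ v ∈ S, u ≠ v → LDis u v) →
  S.card ≤ 8 * (T + 1) * 9 ^ T

/-- Gluing: an infix of length `≤ T` of `Z T ++ L₁ ++ Z g ++ L₂ ++ Z T` cannot meet `L₁` and `L₂`
both; it lies in `Z T ++ L₁ ++ Z T` or in `Z T ++ L₂ ++ Z T` or is `Z p = Z p ++ W c []`. -/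
def TaskGlue : Prop := ∀ (T : ℕ) (Q L₁ L₂ : List Sym) (g : ℕ), T ≤ g →
  Good T Q L₁ → Good T Q L₂ → Good T Q (L₁ ++ Z g ++ L₂)

/-- An infix of length `≤ T ≤ |w|` of `Z T ++ W c w ++ Z T` is `Z p ++ W c w'` or `W c w' ++ Z p`. -/
def TaskWord : Prop := ∀ (T : ℕ) (Q : List Sym) (c : Bool) (w : List V), T ≤ w.length →
  Good T Q (W c w)

/-- Induction on `j ≥ k` with TaskGlue and TaskWord (`Good T Q Q` is trivial; inner induction on
the list of words: note `blk g w` ends with `Z g`, and `Good T Q (L ++ Z g)` follows from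
`Good T Q (L ++ Z g ++ [])`; `n j ≥ g j ≥ g k`). -/
def TaskGoodP : Prop := ∀ k j : ℕ, k ≤ j → Good (g k) (P k) (P j)

/-- Every word of length `g k` of the language is in the family (from TaskGoodP; `P j` is a prefix
of `P (j + 1)`). -/
def TaskLangFam : Prop := ∀ (k : ℕ) (u : List Sym), Lang u → u.length = g k → Fam (g k) (P k) u

/-- From TaskLangFam and TaskCount. -/
def TaskSepUp : Prop := ∀ (k : ℕ) (S : Finset (List Sym)), (∀ u ∈ S, Lang u ∧ u.length = g k) →
  (∀ u ∈ S, ∀ v ∈ S, u ≠ v → LDis u v) → S.card ≤ 8 * (g k + 1) * 9 ^ (g k)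

/-- A list that is a concatenation of tokens `[none]` and
`W true w ++ Z (g i) ++ W false w ++ [none]` (`|w| = n i`). -/
def Tok (L : List Sym) : Prop := ∃ l : List (List Sym), L = l.flatten ∧ ∀ t ∈ l, t = [none] ∨
  ∃ (i : ℕ) (w : List V), w.length = n i ∧ t = W true w ++ Z (g i) ++ W false w ++ [none]

/-- Every `P k` is a concatenation of tokens (`Z m` is one; `blk` is a token and zeros). -/
def TaskTokP : Prop := ∀ k, Tok (P k)

/-- Parsing: in a concatenation of tokens a zero followed by a maximal run of `n k` symbols of phase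
`true`, then a zero, can only be the beginning of a token with `i = k` (`g`, `n` are strictly
increasing, `g i ≥ 1`, `n i ≥ 1`).  Induction on the list of tokens. -/
def TaskParse : Prop := ∀ (L : List Sym) (k : ℕ) (U U' : List V), Tok L → U.length = n k →
  U'.length = n k → ([none] ++ W true U ++ Z (g k) ++ W false U' ++ [none]) <:+: L → U = U'

/-- The growth: `g` is strictly increasing (`|P (k+1)| ≥ |P k| + (|P k| + 1)`), so `g k ≥ k + 2`. -/
def TaskGrow : Prop := StrictMono g ∧ (∀ k, k + 2 ≤ g k) ∧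
  ∀ j k, j ≤ k → P j <+: P k

/-- The windows `[none] ++ W true w ++ Z (g k) ++ W false w ++ [none]`, `|w| = n k`, are in the
language (look at `P (k + 1)`; before each block there is a zero). -/
def TaskBlk : Prop := ∀ (k : ℕ) (w : List V), w.length = n k →
  Lang ([none] ++ W true w ++ Z (g k) ++ W false w ++ [none])

/-- Spanning: from TaskParse, TaskTokP, TaskBlk.  If `s` in the language is not distinguished from
the window of `w` at any place, it has the same zeros and phases (`dis` is true for zero/non-zero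
and for different phases), so it is `[none] ++ W true U ++ Z (g k) ++ W false U' ++ [none]`, so
`U = U'` by TaskParse, so `U = w` (two different triples are distinguishable in exactly one phase).
So the `84 ^ n k` windows need different elements of `S` (`Fintype.card V = 84`). -/
def TaskSpanLow : Prop := ∀ (k : ℕ) (S : Finset (List Sym)),
  (∀ s ∈ S, Lang s ∧ s.length = 2 * n k + g k + 2) →
  (∀ u, Lang u → u.length = 2 * n k + g k + 2 → ∃ s ∈ S, ¬ LDis s u) → 84 ^ (n k) ≤ S.card

/-- `D (x, y) ≥ 1` iff the symbols at `0` are distinguishable (the other terms are `≤ 1/4`). -/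
def TaskOne : Prop := ∀ x y : Full, 1 ≤ dist x y ↔ dis (x 0) (y 0)

/-- Compactness (sequences in a finite alphabet; e.g. the identity from the product topology of
discrete spaces, `Function.compactSpace`, to `Full` is continuous, since agreement on `[-m, m]`
gives distance `≤ (1/4) ^ (m + 1)`). -/
def TaskCompact : Prop := CompactSpace Full

/-- Small distance: agreement on `[-m, m]`. -/
def TaskClose : Prop := (∀ (x y : Full) (m : ℕ), (∀ i : ℤ, i.natAbs ≤ m → x i = y i) →
    dist x y ≤ (1 / 4 : ℝ) ^ (m + 1)) ∧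
  ∀ (x y : Full) (m : ℕ), dist x y < (1 / 4 : ℝ) ^ m * (1 / 2) → ∀ i : ℤ, i.natAbs ≤ m → x i = y i

/-- `XX` is closed (from TaskClose: each window depends on finitely many coordinates). -/
def TaskClosed : Prop := IsClosed XX

/-- The shift is a homeomorphism of the subshift (both maps are Lipschitz with constant 4). -/
def TaskShift : Prop := Continuous shX ∧ Continuous shX' ∧ Function.LeftInverse shX' shX ∧
  Function.RightInverse shX' shX

/-- Every word of the language is the window at `0` of a point of the subshift.  The point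
`x₀ i = none` for `i < 0`, `x₀ i = (P k)[i]` for `0 ≤ i < |P k|`, is in `XX` (its windows are
infixes of `Z m ++ P k` and `P (j + 1)` ends with `Z (g j) ++ P j`-like parts, cf. the next task);
shift it. -/
def TaskExt : Prop := ∀ u : List Sym, Lang u → ∃ x : XX, win x.1 0 u.length = u

/-- The zero-extended words are in the language: for every `m`, `k` there is `j` with
`Z m ++ P k <:+: P j` (`P (j+1)` ends with `Z (g j) ++ P j`; `P k` is a prefix of `P j`). -/
def TaskZP : Prop := ∀ m k : ℕ, ∃ j, Z m ++ P k <:+: P j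

/-- The point `x₀`: from TaskGrow (prefixes) and TaskZP. -/
def TaskPoint : Prop := ∃ x : Full, x ∈ XX ∧ (∀ i : ℤ, i < 0 → x i = none) ∧
  ∀ k : ℕ, win x 0 (P k).length = P k

/-- Transitivity: the forward orbit of the point of TaskPoint is dense (each window `[-m, m]` of a
point of `XX` is an infix of some `P k`, so it is seen in `x₀` at a nonnegative place). -/
def TaskDense : Prop := ∃ x : XX, Dense (Set.range fun m : ℕ => shX^[m] x)

/-- `D_T` is a maximum (general; `Fin T` is finite and nonempty). -/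
def TaskDT : Prop := ∀ (X : Type) [MetricSpace X] (F : X → X) (ε : ℝ) (T : ℕ) (x y : X), 0 < T →
  ((ε ≤ DT F T x y ↔ ∃ t < T, ε ≤ dist (F^[t] x) (F^[t] y)) ∧
    (DT F T x y < ε ↔ ∀ t < T, dist (F^[t] x) (F^[t] y) < ε))

/-- Translation to words, for `ε = 1` (from TaskDT, TaskOne): the windows at `0` of length `T`. -/
def TaskTr : Prop := ∀ (T : ℕ) (x y : XX), 0 < T →
  (1 ≤ DT shX T x y ↔ LDis (win x.1 0 T) (win y.1 0 T))

/-- From TaskTr (`LDis u u` is false, so different points of `S` have different windows). -/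
def TaskSepList : Prop := ∀ (T : ℕ) (S : Finset XX), 0 < T → Separated shX 1 T S →
  ∃ S' : Finset (List Sym), S'.card = S.card ∧ (∀ u ∈ S', Lang u ∧ u.length = T) ∧
    ∀ u ∈ S', ∀ v ∈ S', u ≠ v → LDis u v

/-- From TaskTr and TaskExt. -/
def TaskSpanList : Prop := ∀ (T : ℕ) (S : Finset XX), 0 < T → Spanning shX 1 T S →
  ∃ S' : Finset (List Sym), S'.card ≤ S.card ∧ (∀ u ∈ S', Lang u ∧ u.length = T) ∧
    ∀ u, Lang u → u.length = T → ∃ s ∈ S', ¬ LDis s u

/-- Entropy bound (from TaskDT, TaskClose): if the windows of length `T + 2 m + 1` at `-m` agree, then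
`D_T < ε` for `(1/4) ^ (m + 1) < ε`; there are `169 ^ (T + 2 m + 1)` windows. -/
def TaskEnt : Prop := ∀ ε : ℝ, 0 < ε → ∃ K : ℕ, ∀ (T : ℕ) (S : Finset XX), 0 < T →
  Separated shX ε T S → S.card ≤ K * 169 ^ T

/-- General: a maximal separated set is spanning.  If all separated sets have at most `M` elements
then `1 ≤ span ≤ sep ≤ M` (for a nonempty space and `T > 0`; `sep` is attained). -/
def TaskGen : Prop := ∀ (X : Type) [MetricSpace X] [Nonempty X] (F : X → X) (ε : ℝ) (T M : ℕ),
  0 < T → 0 < ε → (∀ S : Finset X, Separated F ε T S → S.card ≤ M) →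
  1 ≤ span F ε T ∧ span F ε T ≤ sep F ε T ∧ sep F ε T ≤ M ∧
    (∃ S : Finset X, S.card = sep F ε T ∧ Separated F ε T S) ∧
    ∃ S : Finset X, S.card = span F ε T ∧ Spanning F ε T S

/-- Real analysis: `liminf ≤ log 9 < (log 84)/2 ≤ limsup`; `q` is `span` or `sep`. -/
def TaskRate : Prop := ∀ (q G : ℕ → ℕ) (K : ℕ), StrictMono G → (∀ k, k + 2 ≤ G k) →
  (∀ T, 0 < T → 1 ≤ q T ∧ q T ≤ K * 169 ^ T) →
  (∀ k, q (G k) ≤ 8 * (G k + 1) * 9 ^ (G k)) →
  (∀ k, 84 ^ (G k ^ 2) ≤ q (2 * G k ^ 2 + G k + 2)) →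
  liminf (fun T : ℕ => Real.log (q T) / T) atTop < limsup (fun T : ℕ => Real.log (q T) / T) atTop

/-- Real analysis: finite entropy from the bound of TaskEnt. -/
def TaskLogBd : Prop := ∀ (q : ℕ → ℕ) (K : ℕ), (∀ T, 0 < T → q T ≤ K * 169 ^ T) →
  ∀ᶠ T : ℕ in atTop, Real.log (q T) / T ≤ Real.log 169 + 1

end Pool.Agent.Q41.OSC
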