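import Pool.Agent.Q41.OSC.Stmts

set_option autoImplicit false

namespace Pool.Agent.Q41.OSC.TaskA

open Pool.Agent.Q41.OSC

private lemma sum_ind (u v : V) :
    (∑ j : Fin 9, (if j ∈ u.1 then (1 : ZMod 2) else 0) * (if j ∈ v.1 then (1 : ZMod 2) else 0)) =
      ((u.1 ∩ v.1).card : ZMod 2) := by
  have h1 : ∀ j : Fin 9, (if j ∈ u.1 then (1 : ZMod 2) else 0) * (if j ∈ v.1 then (1 : ZMod 2) else 0)
      = if j ∈ u.1 ∩ v.1 then 1 else 0 := by
    intro j
    by_cases hu : j ∈ u.1 <;> by_cases hv : j ∈ v.1 <;> simp [hu, hv]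
  rw [Finset.sum_congr rfl fun j _ => h1 j, Finset.sum_ite_mem, Finset.univ_inter,
    Finset.sum_const, nsmul_eq_mul, mul_one]

private lemma card_inter (u v : V) (h : u ≠ v) (h1 : (u.1 ∩ v.1).card ≠ 1) :
    ((u.1 ∩ v.1).card : ZMod 2) = 0 := by
  have h3 : (u.1 ∩ v.1).card ≤ 3 := (Finset.card_le_card Finset.inter_subset_left).trans u.2.le
  have h4 : (u.1 ∩ v.1).card ≠ 3 := by
    intro h5
    have h6 : u.1 ∩ v.1 = u.1 :=
      Finset.eq_of_subset_of_card_le Finset.inter_subset_left (by rw [h5, u.2])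
    have h7 : u.1 ∩ v.1 = v.1 :=
      Finset.eq_of_subset_of_card_le Finset.inter_subset_right (by rw [h5, v.2])
    exact h (Subtype.ext (h6.symm.trans h7))
  have h5 : (u.1 ∩ v.1).card = 0 ∨ (u.1 ∩ v.1).card = 2 := by omega
  rcases h5 with h5 | h5 <;> rw [h5]
  · rfl
  · rfl

private lemma three_ne : ((3 : ℕ) : ZMod 2) ≠ 0 := by decide

theorem main (h : TaskHaem) : TaskA := by
  classical
  intro m S hS
  have : Fact (Nat.Prime 2) := ⟨Nat.prime_two⟩
  refine h (ZMod 2) (Fin m → V) m (fun i u j => if j ∈ (u i).1 then 1 else 0)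
    (fun i u j => if j ∈ (u i).1 then 1 else 0) S ?_ ?_
  · intro u _
    rw [Finset.prod_ne_zero_iff]
    intro i _
    rw [sum_ind, Finset.inter_self, (u i).2]
    exact three_ne
  · intro u hu v hv huv
    obtain ⟨i, hi, hi'⟩ := hS u hu v hv huv
    refine Finset.prod_eq_zero (Finset.mem_univ i) ?_
    rw [sum_ind]
    exact card_inter _ _ hi hi'

end Pool.Agent.Q41.OSC.TaskA
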