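import Pool.Agent.Q41.OSC.Stmts

set_option autoImplicit false

namespace Pool.Agent.Q41.OSC.TaskB

theorem sum_eq (u v : Pool.Agent.Q41.OSC.V) :
    ∑ j : Fin 9, (if j ∈ u.1 then (1 : ℚ) else 0) * ((if j ∈ v.1 then (1 : ℚ) else 0) - 1 / 3) =
      ((u.1 ∩ v.1).card : ℚ) - 1 := by
  have h1 : ∑ j : Fin 9, (if j ∈ u.1 then (1 : ℚ) else 0) *
      ((if j ∈ v.1 then (1 : ℚ) else 0) - 1 / 3) =
      ∑ j : Fin 9, (if j ∈ u.1 ∩ v.1 then (1 : ℚ) else 0) -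
        ∑ j : Fin 9, (if j ∈ u.1 then (1 : ℚ) else 0) * (1 / 3) := by
    rw [← Finset.sum_sub_distrib]
    refine Finset.sum_congr rfl (fun j _ => ?_)
    by_cases hu : j ∈ u.1 <;> by_cases hv : j ∈ v.1 <;> simp [hu, hv]
  rw [h1, ← Finset.sum_mul]
  have h2 : ∑ j : Fin 9, (if j ∈ u.1 then (1 : ℚ) else 0) = 3 := by
    have := u.2
    rw [Finset.sum_ite_mem]
    simp [this]
  have h3 : ∑ j : Fin 9, (if j ∈ u.1 ∩ v.1 then (1 : ℚ) else 0) = ((u.1 ∩ v.1).card : ℚ) := by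
    rw [Finset.sum_ite_mem]
    simp
  rw [h2, h3]
  norm_num

theorem main (h : Pool.Agent.Q41.OSC.TaskHaem) : Pool.Agent.Q41.OSC.TaskB := by
  intro m S hS
  refine h ℚ (Fin m → Pool.Agent.Q41.OSC.V) m
    (fun i u j => if j ∈ (u i).1 then 1 else 0)
    (fun i v j => (if j ∈ (v i).1 then 1 else 0) - 1 / 3) S ?_ ?_
  · intro u _
    rw [Finset.prod_ne_zero_iff]
    intro i _
    rw [sum_eq]
    have := (u i).2
    rw [Finset.inter_self, this]
    norm_num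
  · intro u hu v hv huv
    obtain ⟨i, hi⟩ := hS u hu v hv huv
    refine Finset.prod_eq_zero (Finset.mem_univ i) ?_
    rw [sum_eq, hi]
    norm_num

end Pool.Agent.Q41.OSC.TaskB
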