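import Pool.Agent.Q41.OSC.Stmts

set_option autoImplicit false

namespace Pool.Agent.Q41.OSC.TaskBlk

open Pool.Agent.Q41.OSC

theorem mem_words (m : ℕ) (w : List V) (hw : w.length = m) : w ∈ words m := by
  subst hw
  unfold words
  rw [List.mem_map]
  exact ⟨w.get, by simp, List.ofFn_get w⟩

theorem Z_end (m : ℕ) : Z (m + 1) = Z m ++ [none] := by
  unfold Z
  rw [List.replicate_succ']

theorem Z_beg (m : ℕ) : Z (m + 1) = [none] ++ Z m := by
  unfold Z
  rw [List.replicate_succ]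
  rfl

theorem ends (m : ℕ) (A : List (List V)) :
    ∃ X, Z (m + 1) ++ A.flatMap (blk (m + 1)) = X ++ [none] := by
  rcases List.eq_nil_or_concat A with rfl | ⟨A', a, rfl⟩
  · exact ⟨Z m, by rw [Z_end]; simp⟩
  · refine ⟨Z (m + 1) ++ A'.flatMap (blk (m + 1)) ++ (W true a ++ Z (m + 1) ++ W false a ++ Z m), ?_⟩
    simp only [List.concat_eq_append, List.flatMap_append, List.flatMap_cons, List.flatMap_nil, List.append_nil]
    unfold blk
    rw [show W true a ++ Z (m + 1) ++ W false a ++ Z (m + 1) = W true a ++ Z (m + 1) ++ W false a ++ (Z m ++ [none]) by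
      rw [← Z_end]]
    simp only [List.append_assoc]

theorem main : Pool.Agent.Q41.OSC.TaskBlk := by
  intro k w hw
  obtain ⟨m, hm⟩ : ∃ m, m = (P k).length := ⟨_, rfl⟩
  have hg : g k = m + 1 := by unfold g; rw [hm]
  have hn : n k = (m + 1) ^ 2 := by unfold n; rw [hg]
  have hmem : w ∈ words ((m + 1) ^ 2) := mem_words _ w (by rw [hw, hn])
  obtain ⟨A, B, hAB⟩ := List.append_of_mem hmem
  obtain ⟨X, hX⟩ := ends m A
  refine ⟨k + 1, ?_⟩
  rw [hg]
  refine ⟨P k ++ X, Z m ++ B.flatMap (blk (m + 1)) ++ P k, ?_⟩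
  show _ = step (P k)
  unfold step
  rw [← hm, hAB, List.flatMap_append, List.flatMap_cons]
  have e1 : P k ++ Z (m + 1) ++ (A.flatMap (blk (m + 1)) ++ (blk (m + 1) w ++ B.flatMap (blk (m + 1)))) ++ P k =
      P k ++ (Z (m + 1) ++ A.flatMap (blk (m + 1))) ++ (blk (m + 1) w ++ B.flatMap (blk (m + 1))) ++ P k := by
    simp only [List.append_assoc]
  rw [e1, hX]
  have e2 : blk (m + 1) w = W true w ++ Z (m + 1) ++ W false w ++ ([none] ++ Z m) := by
    unfold blk
    rw [← Z_beg]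
  rw [e2]
  simp only [List.append_assoc]

end Pool.Agent.Q41.OSC.TaskBlk
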