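import Pool.Agent.Q41.OSC.Stmts

/-! MP_307271_an, blueprint of helper41: `TaskC` (by helper232). -/

namespace Pool.Agent.Q41.OSC.TaskC

open Pool.Agent.Q41.OSC

theorem getElem_W (c : Bool) {m : ℕ} (f : Fin m → V) (i : ℕ) (a : Sym)
    (h : (W c (List.ofFn f))[i]? = some a) : ∃ hi : i < m, a = some (f ⟨i, hi⟩, c) := by
  unfold W at h
  rw [List.getElem?_map, List.getElem?_ofFn] at h
  by_cases hi : i < m
  · rw [dif_pos hi] at h
    refine ⟨hi, ?_⟩
    simpa using h.symm
  · rw [dif_neg hi] at h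
    simp at h

theorem place (c : Bool) {m : ℕ} (u v : Fin m → V) (h : LDis (W c (List.ofFn u)) (W c (List.ofFn v))) :
    ∃ i : Fin m, if c = true then u i ≠ v i ∧ ((u i).1 ∩ (v i).1).card ≠ 1
      else ((u i).1 ∩ (v i).1).card = 1 := by
  obtain ⟨i, a, b, ha, hb, hab⟩ := h
  obtain ⟨hi, rfl⟩ := getElem_W c u i a ha
  obtain ⟨_, rfl⟩ := getElem_W c v i b hb
  refine ⟨⟨i, hi⟩, ?_⟩
  simpa [dis] using hab

theorem main (hA : TaskA) (hB : TaskB) : TaskC := by
  classical
  intro c m S hS hd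
  set S' : Finset (Fin m → V) := Finset.univ.filter (fun f => List.ofFn f ∈ S) with hS'
  have hcard : S.card ≤ S'.card := by
    have hsub : S ⊆ S'.image List.ofFn := by
      intro u hu
      have hl := hS u hu
      subst hl
      refine Finset.mem_image.mpr ⟨fun i => u.get i, ?_, List.ofFn_get u⟩
      rw [hS', Finset.mem_filter]
      refine ⟨Finset.mem_univ _, ?_⟩
      rw [List.ofFn_get]
      exact hu
    exact (Finset.card_le_card hsub).trans Finset.card_image_le
  refine hcard.trans ?_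
  have hpl : ∀ u ∈ S', ∀ v ∈ S', u ≠ v →
      ∃ i : Fin m, if c = true then u i ≠ v i ∧ ((u i).1 ∩ (v i).1).card ≠ 1
        else ((u i).1 ∩ (v i).1).card = 1 := by
    intro u hu v hv huv
    refine place c u v (hd _ (Finset.mem_filter.mp hu).2 _ (Finset.mem_filter.mp hv).2 ?_)
    intro h
    exact huv (List.ofFn_injective h)
  cases c with
  | true =>
    refine hA m S' fun u hu v hv huv => ?_
    obtain ⟨i, hi⟩ := hpl u hu v hv huv
    exact ⟨i, by simpa using hi⟩
  | false =>
    refine hB m S' fun u hu v hv huv => ?_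
    obtain ⟨i, hi⟩ := hpl u hu v hv huv
    exact ⟨i, by simpa using hi⟩

end Pool.Agent.Q41.OSC.TaskC
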