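import Pool.Agent.Q41.OSC.Stmts

set_option autoImplicit false

/-! MP_307271_an: small distance and agreement near the origin. -/

namespace Pool.Agent.Q41.OSC.TaskClose

open Pool.Agent.Q41.OSC

theorem main : Pool.Agent.Q41.OSC.TaskClose := by
  refine ⟨fun x y m h => ?_, fun x y m h i hi => ?_⟩
  · rw [dist_def]
    unfold DD
    refine ciSup_le fun i => ?_
    by_cases hi : i.natAbs ≤ m
    · have h0 : d (x i) (y i) = 0 := by simp [d, h i hi]
      rw [h0, mul_zero]
      positivity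
    · have h1 : (1 / 4 : ℝ) ^ i.natAbs ≤ (1 / 4 : ℝ) ^ (m + 1) :=
        pow_le_pow_of_le_one (by norm_num) (by norm_num) (by omega)
      calc (1 / 4 : ℝ) ^ i.natAbs * d (x i) (y i) ≤ (1 / 4 : ℝ) ^ (m + 1) * 1 :=
            mul_le_mul h1 (d_le _ _) (d_nonneg _ _) (by positivity)
        _ = (1 / 4 : ℝ) ^ (m + 1) := mul_one _
  · by_contra hne
    have h1 := le_DD x y i
    rw [dist_def] at h
    have h2 : 1 / 2 ≤ d (x i) (y i) := by
      unfold d; rw [if_neg hne]; split_ifs <;> norm_num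
    have h3 : (1 / 4 : ℝ) ^ m ≤ (1 / 4 : ℝ) ^ i.natAbs :=
      pow_le_pow_of_le_one (by norm_num) (by norm_num) hi
    have h4 : (1 / 4 : ℝ) ^ m * (1 / 2) ≤ (1 / 4 : ℝ) ^ i.natAbs * d (x i) (y i) :=
      mul_le_mul h3 h2 (by norm_num) (by positivity)
    linarith

end Pool.Agent.Q41.OSC.TaskClose
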