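import Pool.Agent.Q41.OSC.Stmts

namespace Pool.Agent.Q41.OSC.TaskClosed
open Pool.Agent.Q41.OSC

theorem main (hC : TaskClose) : Pool.Agent.Q41.OSC.TaskClosed := by
  unfold Pool.Agent.Q41.OSC.TaskClosed
  refine isClosed_of_closure_subset ?_
  intro x hx a m
  have hpos : (0 : ℝ) < (1 / 4 : ℝ) ^ (a.natAbs + m) * (1 / 2) := by positivity
  obtain ⟨y, hy, hxy⟩ := Metric.mem_closure_iff.1 hx _ hpos
  have h := hC.2 x y (a.natAbs + m) hxy
  have hw : win x a m = win y a m := by
    unfold win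
    congr 1
    funext i
    have hi : (i : ℕ) < m := i.2
    refine h _ ?_
    omega
  rw [hw]
  exact hy a m

end Pool.Agent.Q41.OSC.TaskClosed
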