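import Pool.Agent.Q41.OSC.Stmts

/-! Blueprint for MP_307271_an: `Full` is compact. -/

namespace Pool.Agent.Q41.OSC.TaskCompact
open Filter Topology

private theorem surj_compact {Y Z : Type} [TopologicalSpace Y] [TopologicalSpace Z]
    [CompactSpace Y] (f : Y → Z) (hf : Continuous f) (hs : Function.Surjective f) :
    CompactSpace Z := by
  refine ⟨?_⟩
  rw [← hs.range_eq]
  exact isCompact_range hf

theorem main (hC : TaskClose) : Pool.Agent.Q41.OSC.TaskCompact := by
  unfold Pool.Agent.Q41.OSC.TaskCompact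
  letI : TopologicalSpace Sym := ⊥
  haveI : DiscreteTopology Sym := ⟨rfl⟩
  haveI : Finite Sym := inferInstance
  haveI : CompactSpace Sym := Finite.compactSpace
  haveI : CompactSpace (ℤ → Sym) := Function.compactSpace
  refine surj_compact (Y := ℤ → Sym) (Z := Full) (fun x => x) ?_ (fun x => ⟨x, rfl⟩)
  rw [continuous_iff_continuousAt]
  intro x
  unfold ContinuousAt
  rw [Metric.tendsto_nhds]
  intro ε hε
  obtain ⟨m, hm⟩ := exists_pow_lt_of_lt_one hε (by norm_num : (1 / 4 : ℝ) < 1)
  have hev : ∀ᶠ y : ℤ → Sym in 𝓝 x, ∀ i ∈ Finset.Icc (-(m : ℤ)) m, y i = x i := by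
    rw [Filter.eventually_all_finset]
    intro i _
    have h1 : Tendsto (fun y : ℤ → Sym => y i) (𝓝 x) (𝓝 (x i)) :=
      (continuous_apply i).continuousAt
    have h2 : ∀ᶠ s : Sym in 𝓝 (x i), s = x i := by
      rw [nhds_discrete]
      exact Filter.eventually_pure.2 rfl
    exact h1.eventually h2
  filter_upwards [hev] with y hy
  have h3 := hC.1 y x m (fun i hi => hy i (by
    rw [Finset.mem_Icc]
    constructor <;> omega))
  have h4 : (1 / 4 : ℝ) ^ (m + 1) ≤ (1 / 4 : ℝ) ^ m := by
    rw [pow_succ]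
    have : (0 : ℝ) ≤ (1 / 4 : ℝ) ^ m := by positivity
    nlinarith
  exact lt_of_le_of_lt (h3.trans h4) hm

end Pool.Agent.Q41.OSC.TaskCompact
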