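import Pool.Agent.Q41.OSC.Stmts

/-! `TaskCount` of the blueprint for MP_307271_an (helper170). -/

namespace Pool.Agent.Q41.OSC.TaskCount
open Pool.Agent.Q41.OSC

private theorem ldis_prefix (p : ℕ) (a b : List Sym) (h : LDis (Z p ++ a) (Z p ++ b)) :
    LDis a b := by
  obtain ⟨i, x, y, h1, h2, h3⟩ := h
  by_cases hi : i < p
  · exfalso
    rw [List.getElem?_append_left (by simpa [Z] using hi)] at h1 h2
    rw [Z, List.getElem?_replicate, if_pos hi] at h1 h2
    have e1 : x = none := (Option.some.inj h1).symm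
    have e2 : y = none := (Option.some.inj h2).symm
    subst e1; subst e2
    exact h3
  · rw [List.getElem?_append_right (by simpa [Z] using hi)] at h1 h2
    exact ⟨_, x, y, h1, h2, h3⟩

private theorem ldis_suffix (p : ℕ) (a b : List Sym) (hab : a.length = b.length)
    (h : LDis (a ++ Z p) (b ++ Z p)) : LDis a b := by
  obtain ⟨i, x, y, h1, h2, h3⟩ := h
  by_cases hi : i < a.length
  · rw [List.getElem?_append_left hi] at h1
    rw [List.getElem?_append_left (hab ▸ hi)] at h2
    exact ⟨_, x, y, h1, h2, h3⟩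
  · exfalso
    rw [List.getElem?_append_right (by omega)] at h1 h2
    rw [Z, List.getElem?_replicate] at h1 h2
    split_ifs at h1 h2
    have e1 : x = none := (Option.some.inj h1).symm
    have e2 : y = none := (Option.some.inj h2).symm
    subst e1; subst e2
    exact h3

private theorem cardA (hC : TaskC) (T p : ℕ) (c : Bool) (S : Finset (List Sym))
    (hl : ∀ u ∈ S, u.length = T)
    (hS : ∀ u ∈ S, ∀ v ∈ S, u ≠ v → LDis u v) (hA : ∀ u ∈ S, ∃ w, u = Z p ++ W c w) :
    S.card ≤ 9 ^ T := by
  classical
  choose! f hf using hA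
  have inj : Set.InjOn f S := by
    intro u hu v hv h
    have e1 := hf u hu
    have e2 := hf v hv
    rw [h] at e1
    exact e1.trans e2.symm
  have h1 := hC c (T - p) (S.image f) (by
    intro w hw
    obtain ⟨u, hu, rfl⟩ := Finset.mem_image.1 hw
    have h2 := congrArg List.length (hf u hu)
    rw [hl u hu] at h2
    simp [Z, W] at h2
    omega) (by
    intro w hw w' hw' hne
    obtain ⟨u, hu, rfl⟩ := Finset.mem_image.1 hw
    obtain ⟨v, hv, rfl⟩ := Finset.mem_image.1 hw'
    have hne' : u ≠ v := fun h => hne (by rw [h])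
    have h2 : LDis (Z p ++ W c (f u)) (Z p ++ W c (f v)) := by
      have h3 := hS u hu v hv hne'
      exact (hf u hu) ▸ (hf v hv) ▸ h3
    exact ldis_prefix p _ _ h2)
  rw [Finset.card_image_of_injOn inj] at h1
  exact h1.trans (Nat.pow_le_pow_right (by norm_num) (Nat.sub_le _ _))

private theorem cardB (hC : TaskC) (T p : ℕ) (c : Bool) (S : Finset (List Sym))
    (hl : ∀ u ∈ S, u.length = T)
    (hS : ∀ u ∈ S, ∀ v ∈ S, u ≠ v → LDis u v) (hA : ∀ u ∈ S, ∃ w, u = W c w ++ Z p) :
    S.card ≤ 9 ^ T := by
  classical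
  choose! f hf using hA
  have inj : Set.InjOn f S := by
    intro u hu v hv h
    have e1 := hf u hu
    have e2 := hf v hv
    rw [h] at e1
    exact e1.trans e2.symm
  have hlen : ∀ u ∈ S, (f u).length = T - p := by
    intro u hu
    have h2 := congrArg List.length (hf u hu)
    rw [hl u hu] at h2
    simp [Z, W] at h2
    omega
  have h1 := hC c (T - p) (S.image f) (by
    intro w hw
    obtain ⟨u, hu, rfl⟩ := Finset.mem_image.1 hw
    exact hlen u hu) (by
    intro w hw w' hw' hne
    obtain ⟨u, hu, rfl⟩ := Finset.mem_image.1 hw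
    obtain ⟨v, hv, rfl⟩ := Finset.mem_image.1 hw'
    have hne' : u ≠ v := fun h => hne (by rw [h])
    have h2 : LDis (W c (f u) ++ Z p) (W c (f v) ++ Z p) := by
      have h3 := hS u hu v hv hne'
      exact (hf u hu) ▸ (hf v hv) ▸ h3
    exact ldis_suffix p _ _ (by simp [W, hlen u hu, hlen v hv]) h2)
  rw [Finset.card_image_of_injOn inj] at h1
  exact h1.trans (Nat.pow_le_pow_right (by norm_num) (Nat.sub_le _ _))

private theorem cardInfix (T : ℕ) (L : List Sym) (S : Finset (List Sym))
    (hl : ∀ u ∈ S, u.length = T) (hS : ∀ u ∈ S, u <:+: L) : S.card ≤ L.length + 1 := by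
  classical
  have h1 : S ⊆ (Finset.range (L.length + 1)).image (fun i => (L.drop i).take T) := by
    intro u hu
    obtain ⟨s, t, hst⟩ := hS u hu
    rw [Finset.mem_image]
    refine ⟨s.length, ?_, ?_⟩
    · rw [Finset.mem_range, ← hst]
      simp only [List.length_append]
      omega
    · rw [← hst, List.append_assoc, List.drop_left, ← hl u hu, List.take_left]
  have h2 := Finset.card_le_card h1
  have h3 := Finset.card_image_le (s := Finset.range (L.length + 1))
    (f := fun i => (L.drop i).take T)
  rw [Finset.card_range] at h3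
  exact h2.trans h3

theorem main (hC : TaskC) : Pool.Agent.Q41.OSC.TaskCount := by
  classical
  intro T Q S hQ hF hS
  set S0 := S.filter fun u => u <:+: Z T ++ Q ++ Z T with hS0
  set A : Bool → ℕ → Finset (List Sym) := fun c p => S.filter fun u => ∃ w, u = Z p ++ W c w with hAd
  set B : Bool → ℕ → Finset (List Sym) := fun c p => S.filter fun u => ∃ w, u = W c w ++ Z p with hBd
  have hsub : S ⊆ S0 ∪ (Finset.univ ×ˢ Finset.range (T + 1)).biUnion
      (fun q : Bool × ℕ => A q.1 q.2 ∪ B q.1 q.2) := by
    intro u hu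
    obtain ⟨hlen, hfam⟩ := hF u hu
    rw [Finset.mem_union, Finset.mem_biUnion]
    rcases hfam with h | ⟨c, p, w, h⟩
    · exact Or.inl (Finset.mem_filter.2 ⟨hu, h⟩)
    · right
      refine ⟨(c, p), ?_, ?_⟩
      · rw [Finset.mem_product]
        refine ⟨Finset.mem_univ _, Finset.mem_range.2 ?_⟩
        rcases h with h | h
        · have h2 := congrArg List.length h
          rw [hlen] at h2
          simp [Z, W] at h2
          show p < T + 1
          omega
        · have h2 := congrArg List.length h
          rw [hlen] at h2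
          simp [Z, W] at h2
          show p < T + 1
          omega
      · rw [Finset.mem_union]
        rcases h with h | h
        · exact Or.inl (Finset.mem_filter.2 ⟨hu, w, h⟩)
        · exact Or.inr (Finset.mem_filter.2 ⟨hu, w, h⟩)
  have h0 : S0.card ≤ 3 * T + 1 := by
    have h1 := cardInfix T (Z T ++ Q ++ Z T) S0
      (fun u hu => (hF u (Finset.mem_filter.1 hu).1).1) (fun u hu => (Finset.mem_filter.1 hu).2)
    simp only [List.length_append, Z, List.length_replicate] at h1
    omega
  have hA : ∀ c p, (A c p).card ≤ 9 ^ T := fun c p =>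
    cardA hC T p c _ (fun u hu => (hF u (Finset.mem_filter.1 hu).1).1)
      (fun u hu v hv => hS u (Finset.mem_filter.1 hu).1 v (Finset.mem_filter.1 hv).1)
      (fun u hu => (Finset.mem_filter.1 hu).2)
  have hB : ∀ c p, (B c p).card ≤ 9 ^ T := fun c p =>
    cardB hC T p c _ (fun u hu => (hF u (Finset.mem_filter.1 hu).1).1)
      (fun u hu v hv => hS u (Finset.mem_filter.1 hu).1 v (Finset.mem_filter.1 hv).1)
      (fun u hu => (Finset.mem_filter.1 hu).2)
  have hbi : ((Finset.univ ×ˢ Finset.range (T + 1)).biUnion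
      (fun q : Bool × ℕ => A q.1 q.2 ∪ B q.1 q.2)).card ≤
      (2 * (T + 1)) * (9 ^ T + 9 ^ T) := by
    refine Finset.card_biUnion_le.trans ?_
    refine (Finset.sum_le_card_nsmul _ _ (9 ^ T + 9 ^ T) ?_).trans ?_
    · intro q _
      exact (Finset.card_union_le _ _).trans (Nat.add_le_add (hA _ _) (hB _ _))
    · rw [Finset.card_product, Finset.card_range, Finset.card_univ, Fintype.card_bool, smul_eq_mul]
  have h9 : 1 ≤ 9 ^ T := Nat.one_le_pow _ _ (by norm_num)
  have hfin := (Finset.card_le_card hsub).trans (Finset.card_union_le _ _)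
  calc S.card ≤ (3 * T + 1) + (2 * (T + 1)) * (9 ^ T + 9 ^ T) := hfin.trans (Nat.add_le_add h0 hbi)
    _ ≤ 8 * (T + 1) * 9 ^ T := by nlinarith

end Pool.Agent.Q41.OSC.TaskCount
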