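import Mathlib
import Pool.Agent.Q41.OSC.Stmts

namespace Pool.Agent.Q41.OSC.TaskDT

open Filter Topology

theorem main : Pool.Agent.Q41.OSC.TaskDT := by
  intro X _ F ε T x y hT
  haveI : Nonempty (Fin T) := ⟨⟨0, hT⟩⟩
  have hb : BddAbove (Set.range fun t : Fin T => dist (F^[(t : ℕ)] x) (F^[(t : ℕ)] y)) :=
    (Set.finite_range _).bddAbove
  obtain ⟨t0, ht0⟩ := exists_eq_ciSup_of_finite
    (f := fun t : Fin T => dist (F^[(t : ℕ)] x) (F^[(t : ℕ)] y))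
  have hD : DT F T x y = dist (F^[(t0 : ℕ)] x) (F^[(t0 : ℕ)] y) := ht0.symm
  have hle : ∀ t < T, dist (F^[t] x) (F^[t] y) ≤ DT F T x y := fun t ht =>
    le_ciSup hb (⟨t, ht⟩ : Fin T)
  refine ⟨⟨fun h => ⟨t0, t0.2, by rw [← hD]; exact h⟩, ?_⟩, ⟨fun h t ht => (hle t ht).trans_lt h,
    fun h => by rw [hD]; exact h t0 t0.2⟩⟩
  rintro ⟨t, ht, h⟩
  exact h.trans (hle t ht)

end Pool.Agent.Q41.OSC.TaskDT
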