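import Pool.Agent.Q41.OSC.Stmts

/-! Entropy bound (blueprint lemma for `MP_307271_an`). -/

namespace Pool.Agent.Q41.OSC.TaskEnt
open Filter Topology
open Pool.Agent.Q41.OSC

theorem iter_apply (t : ℕ) : ∀ (x : XX) (i : ℤ), (shX^[t] x).1 i = x.1 (i + t) := by
  induction t with
  | zero => intro x i; simp
  | succ t ih =>
    intro x i
    rw [Function.iterate_succ_apply, ih]
    exact congrArg x.1 (show i + t + 1 = i + ((t + 1 : ℕ) : ℤ) by push_cast; ring)

theorem card_sym : Fintype.card Sym = 169 := by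
  have h1 : Fintype.card V = 84 := by
    rw [Fintype.card_finset_len]; rfl
  rw [Fintype.card_option, Fintype.card_prod, h1]
  rfl

theorem main (h1 : TaskDT) (h2 : TaskClose) : Pool.Agent.Q41.OSC.TaskEnt := by
  classical
  intro ε hε
  obtain ⟨m, hm⟩ := exists_pow_lt_of_lt_one hε (show (1 / 4 : ℝ) < 1 by norm_num)
  have hm' : (1 / 4 : ℝ) ^ (m + 1) < ε := by
    have h3 : (0 : ℝ) < (1 / 4 : ℝ) ^ m := by positivity
    rw [pow_succ]
    linarith
  refine ⟨169 ^ (2 * m + 1), ?_⟩
  intro T S hT hS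
  set Φ : XX → (Fin (T + (2 * m + 1)) → Sym) := fun x i => x.1 (-(m : ℤ) + (i : ℕ)) with hΦ
  have hinj : Set.InjOn Φ S := by
    intro x hx y hy hxy
    by_contra hne
    have h3 := hS x hx y hy hne
    have h4 : DT shX T x y < ε := by
      rw [(h1 XX shX ε T x y hT).2]
      intro t ht
      refine lt_of_le_of_lt ?_ hm'
      show dist (shX^[t] x).1 (shX^[t] y).1 ≤ _
      apply h2.1
      intro i hi
      rw [iter_apply, iter_apply]
      have hk : (i + t + m).toNat < T + (2 * m + 1) := by omega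
      have h5 := congrFun hxy ⟨(i + t + m).toNat, hk⟩
      simp only [hΦ] at h5
      have h6 : -(m : ℤ) + (((i + t + m).toNat : ℕ) : ℤ) = i + t := by omega
      rw [h6] at h5
      exact h5
    linarith
  calc S.card = (S.image Φ).card := (Finset.card_image_of_injOn hinj).symm
    _ ≤ Fintype.card (Fin (T + (2 * m + 1)) → Sym) := Finset.card_le_univ _
    _ = 169 ^ (T + (2 * m + 1)) := by
        rw [Fintype.card_fun, card_sym, Fintype.card_fin]
    _ = 169 ^ (2 * m + 1) * 169 ^ T := by rw [pow_add, mul_comm]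

end Pool.Agent.Q41.OSC.TaskEnt
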