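import Pool.Agent.Q41.OSC.Stmts

set_option autoImplicit false

namespace Pool.Agent.Q41.OSC.TaskExt

open Pool.Agent.Q41.OSC

theorem main (hP : TaskPoint) : Pool.Agent.Q41.OSC.TaskExt := by
  obtain ⟨x₀, hx, -, hwin⟩ := hP
  rintro u ⟨k, s, t, hst⟩
  have hw : ∀ (a : ℤ) (m : ℕ), win (fun i : ℤ => x₀ (i + (s.length : ℤ))) a m =
      win x₀ (a + s.length) m := by
    intro a m
    unfold win
    congr 1
    funext i
    show x₀ (a + ((i : ℕ) : ℤ) + (s.length : ℤ)) = x₀ (a + (s.length : ℤ) + ((i : ℕ) : ℤ))
    congr 1
    ring
  refine ⟨⟨fun i : ℤ => x₀ (i + (s.length : ℤ)), fun a m => ?_⟩, ?_⟩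
  · rw [hw]
    exact hx _ _
  · show win (fun i : ℤ => x₀ (i + (s.length : ℤ))) 0 u.length = u
    rw [hw]
    have hlen : (P k).length = s.length + u.length + t.length := by
      rw [← hst]; simp only [List.length_append]
    apply List.ext_getElem
    · simp [win]
    · intro i h1 h2
      have h3 : s.length + i < (P k).length := by omega
      have h4 : (win x₀ 0 (P k).length)[s.length + i]'(by simpa [win] using h3) =
          (P k)[s.length + i]'h3 := by
        congr 1
        exact hwin k
      have h5 : (P k)[s.length + i]'h3 = u[i] := by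
        have h6 : (P k)[s.length + i]? = u[i]? := by
          rw [← hst, List.append_assoc, List.getElem?_append_right (by omega)]
          rw [Nat.add_sub_cancel_left, List.getElem?_append_left h2]
        rw [List.getElem?_eq_getElem h3, List.getElem?_eq_getElem h2] at h6
        exact Option.some.inj h6
      rw [h5] at h4
      rw [← h4]
      unfold win
      simp only [List.getElem_ofFn]
      congr 1
      push_cast
      ring

end Pool.Agent.Q41.OSC.TaskExt
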