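import Pool.Agent.Q41.OSC.Stmts

/-! Blueprint for MP_307271_an, Q1: the words `P j` are good (helper182). -/

namespace Pool.Agent.Q41.OSC.TaskGoodP
open Pool.Agent.Q41.OSC

theorem good_flat (hG : TaskGlue) (hW : TaskWord) (T : ℕ) (Q L : List Sym) (g' : ℕ) (hg : T ≤ g')
    (hL : Good T Q L) : ∀ ws : List (List V), (∀ w ∈ ws, T ≤ w.length) →
      Good T Q (ws.flatMap (blk g') ++ L)
  | [], _ => by simpa using hL
  | w :: ws, h => by
    have ih := good_flat hG hW T Q L g' hg hL ws fun v hv => h v (List.mem_cons_of_mem _ hv)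
    have hw := h w List.mem_cons_self
    have h1 := hG T Q _ _ g' hg (hW T Q false w hw) ih
    have h2 := hG T Q _ _ g' hg (hW T Q true w hw) h1
    have e : (w :: ws).flatMap (blk g') ++ L =
        W true w ++ Z g' ++ (W false w ++ Z g' ++ (ws.flatMap (blk g') ++ L)) := by
      simp only [List.flatMap_cons, blk, List.append_assoc]
    rw [e]
    exact h2

theorem main (hG : TaskGlue) (hW : TaskWord) (hGr : TaskGrow) :
    Pool.Agent.Q41.OSC.TaskGoodP := by
  intro k j hkj
  induction j, hkj using Nat.le_induction with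
  | base => exact fun u hu _ => Or.inl hu
  | succ j hkj ih =>
    have hT : g k ≤ g j := hGr.1.monotone hkj
    have hT' : g k ≤ (P j).length + 1 := hT
    have h1 : Good (g k) (P k)
        ((words (((P j).length + 1) ^ 2)).flatMap (blk ((P j).length + 1)) ++ P j) := by
      refine good_flat hG hW _ _ _ _ hT' ih _ fun w hw => ?_
      unfold words at hw
      obtain ⟨f, _, rfl⟩ := List.mem_map.1 hw
      rw [List.length_ofFn]
      nlinarith
    have h2 := hG _ _ _ _ _ hT' ih h1
    have e : P (j + 1) = P j ++ Z ((P j).length + 1) ++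
        ((words (((P j).length + 1) ^ 2)).flatMap (blk ((P j).length + 1)) ++ P j) := by
      show step (P j) = _
      unfold step
      simp only [List.append_assoc]
    rw [e]
    exact h2

end Pool.Agent.Q41.OSC.TaskGoodP
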