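import Pool.Agent.Q41.OSC.Stmts

namespace Pool.Agent.Q41.OSC.TaskHaem

theorem main : Pool.Agent.Q41.OSC.TaskHaem := by
  intro K _ α _ m f g S h1 h2
  classical
  let Φ : S → ((Fin m → Fin 9) → K) := fun u j => ∏ i, f i u.1 (j i)
  let Ψ : S → ((Fin m → Fin 9) → K) := fun v j => ∏ i, g i v.1 (j i)
  have hpair : ∀ u v : S, ∑ j, Φ u j * Ψ v j = ∏ i, ∑ j, f i u.1 j * g i v.1 j := by
    intro u v
    rw [Finset.prod_univ_sum]
    simp only [Φ, Ψ, Fintype.piFinset_univ, ← Finset.prod_mul_distrib]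
  have hli : LinearIndependent K Φ := by
    rw [Fintype.linearIndependent_iff]
    intro c hc v
    have h3 : ∑ j, (∑ u, c u • Φ u) j * Ψ v j = 0 := by
      rw [hc]
      simp
    have h4 : ∑ j, (∑ u, c u • Φ u) j * Ψ v j = ∑ u, c u * ∑ j, Φ u j * Ψ v j := by
      simp only [Finset.sum_apply, Pi.smul_apply, smul_eq_mul, Finset.sum_mul, Finset.mul_sum]
      rw [Finset.sum_comm]
      refine Finset.sum_congr rfl fun u _ => Finset.sum_congr rfl fun j _ => ?_
      ring
    rw [h4, Finset.sum_eq_single v] at h3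
    · rw [hpair] at h3
      exact (mul_eq_zero.1 h3).resolve_right (h1 v.1 v.2)
    · intro u _ huv
      rw [hpair, h2 u.1 u.2 v.1 v.2 (fun h => huv (Subtype.ext h)), mul_zero]
    · intro h
      exact absurd (Finset.mem_univ v) h
  have h := hli.fintype_card_le_finrank
  simpa using h

end Pool.Agent.Q41.OSC.TaskHaem
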