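import Pool.Agent.Q41.OSC.Stmts

set_option autoImplicit false

namespace Pool.Agent.Q41.OSC.TaskLogBd

open Filter Topology Pool.Agent.Q41.OSC

theorem main : Pool.Agent.Q41.OSC.TaskLogBd := by
  intro q K h
  obtain ⟨N, hN⟩ := exists_nat_ge (Real.log K)
  filter_upwards [eventually_gt_atTop 0, eventually_ge_atTop N] with T hT hTN
  have hT' : (0 : ℝ) < T := by exact_mod_cast hT
  have hNT : (N : ℝ) ≤ T := by exact_mod_cast hTN
  have h169 : (0 : ℝ) ≤ Real.log 169 := Real.log_nonneg (by norm_num)
  rw [div_le_iff₀ hT']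
  rcases Nat.eq_zero_or_pos (q T) with hq | hq
  · rw [hq, Nat.cast_zero, Real.log_zero]
    positivity
  · have hK : 0 < K := by
      rcases Nat.eq_zero_or_pos K with hK | hK
      · have := h T hT
        rw [hK, zero_mul] at this
        omega
      · exact hK
    have hK' : (0 : ℝ) < K := by exact_mod_cast hK
    have hq' : (0 : ℝ) < q T := by exact_mod_cast hq
    have h1 : (q T : ℝ) ≤ K * 169 ^ T := by exact_mod_cast h T hT
    have h2 : Real.log (q T) ≤ Real.log (K * 169 ^ T) := Real.log_le_log hq' h1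
    rw [Real.log_mul hK'.ne' (by positivity), Real.log_pow] at h2
    nlinarith

end Pool.Agent.Q41.OSC.TaskLogBd
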