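import Pool.Agent.Q41.OSC.Stmts

set_option autoImplicit false

namespace Pool.Agent.Q41.OSC.TaskParse

theorem Z_succ (m : ℕ) : Z (m + 1) = none :: Z m := by
  simp [Z, List.replicate_succ]

theorem run (c : Bool) : ∀ (w U : List V) (X Y : List Sym),
    W c w ++ none :: X = W c U ++ none :: Y → w = U ∧ X = Y
  | [], [], X, Y, h => by
      simp only [W, List.map_nil, List.nil_append, List.cons.injEq, true_and] at h
      exact ⟨rfl, h⟩
  | [], u :: U, X, Y, h => by simp [W] at h
  | v :: w, [], X, Y, h => by simp [W] at h
  | v :: w, u :: U, X, Y, h => by
      simp only [W, List.map_cons, List.cons_append, List.cons.injEq, Option.some.injEq,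
        Prod.mk.injEq, and_true] at h
      obtain ⟨h1, h2⟩ := h
      obtain ⟨e1, e2⟩ := run c w U X Y h2
      exact ⟨by rw [h1, e1], e2⟩

theorem n_pos (k : ℕ) : 0 < n k := by
  unfold n g
  positivity

theorem tok_first (l : List (List Sym)) (hl : ∀ t ∈ l, t = [none] ∨
    ∃ (i : ℕ) (w : List V), w.length = n i ∧ t = W true w ++ Z (g i) ++ W false w ++ [none])
    (k : ℕ) (U U' : List V) (Y : List Sym) (hU : U.length = n k)
    (h : l.flatten = W true U ++ Z (g k) ++ W false U' ++ [none] ++ Y) : U = U' := by
  cases l with
  | nil =>
    simp at h
  | cons t₁ l' =>
    rw [List.flatten_cons] at h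
    rcases hl t₁ (by simp) with h1 | ⟨i, w, hw, h1⟩
    · cases U with
      | nil =>
        have := n_pos k
        simp at hU
        omega
      | cons u U =>
        rw [h1] at h
        simp [W] at h
    · rw [h1] at h
      have hgi : g i = (P i).length + 1 := rfl
      have hgk : g k = (P k).length + 1 := rfl
      rw [hgi, hgk, Z_succ, Z_succ] at h
      have h2 : W true w ++ none :: (Z (P i).length ++ (W false w ++ none :: l'.flatten)) =
          W true U ++ none :: (Z (P k).length ++ (W false U' ++ none :: Y)) := by
        simpa [List.append_assoc] using h
      obtain ⟨e1, e2⟩ := run true w U _ _ h2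
      have hlen : n i = n k := by rw [← hw, e1, hU]
      have hg : g i = g k := by
        unfold n at hlen
        exact Nat.pow_left_injective (two_ne_zero) hlen
      have hP : (P i).length = (P k).length := by omega
      rw [hP] at e2
      obtain ⟨e3, _⟩ := run false w U' _ _ (List.append_cancel_left e2)
      rw [← e1, e3]

theorem no_infix (i : ℕ) (w : List V) (u : V) (s c : List Sym) :
    W true w ++ (Z (g i) ++ W false w ++ [none]) ≠ s ++ none :: some (u, true) :: c := by
  intro h
  have hB : some (u, true) ∉ Z (g i) ++ W false w ++ [none] := by
    simp [Z, W]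
  rcases List.append_eq_append_iff.1 h with ⟨a', hs, hR⟩ | ⟨c', ht, hR⟩
  · apply hB
    rw [hR]
    simp
  · cases c' with
    | nil =>
      apply hB
      simp only [List.nil_append] at hR
      rw [← hR]
      simp
    | cons a c'' =>
      simp only [List.cons_append, List.cons.injEq] at hR
      have hmem : (none : Sym) ∈ W true w := by
        rw [ht, ← hR.1]
        simp
      simp [W] at hmem

theorem main : Pool.Agent.Q41.OSC.TaskParse := by
  rintro L k U U' ⟨l, rfl, hl⟩ hU hU' ⟨s, t, h⟩
  induction l generalizing s with
  | nil => simp at h
  | cons t₀ l ih =>
    have hl' : ∀ t ∈ l, t = [none] ∨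
        ∃ (i : ℕ) (w : List V), w.length = n i ∧ t = W true w ++ Z (g i) ++ W false w ++ [none] :=
      fun t ht => hl t (List.mem_cons_of_mem _ ht)
    have h' : t₀ ++ l.flatten =
        s ++ (none :: (W true U ++ Z (g k) ++ W false U' ++ [none] ++ t)) := by
      rw [List.flatten_cons] at h
      rw [← h]
      simp [List.append_assoc]
    rcases List.append_eq_append_iff.1 h' with ⟨a', hs, hR⟩ | ⟨c', ht, hR⟩
    · refine ih hl' a' ?_
      rw [hR]
      simp [List.append_assoc]
    · cases c' with
      | nil =>
        refine ih hl' [] ?_
        simp only [List.nil_append] at hR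
        rw [← hR]
        simp [List.append_assoc]
      | cons a c'' =>
        simp only [List.cons_append, List.cons.injEq] at hR
        obtain ⟨ha, hR⟩ := hR
        cases c'' with
        | nil =>
          simp only [List.nil_append] at hR
          exact tok_first l hl' k U U' t hU hR.symm
        | cons b c3 =>
          cases U with
          | nil =>
            have := n_pos k
            simp at hU
            omega
          | cons u U =>
            simp only [W, List.map_cons, List.cons_append, List.cons.injEq] at hR
            obtain ⟨hb, _⟩ := hR
            rcases hl t₀ (by simp) with h1 | ⟨i, w, hw, h1⟩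
            · rw [h1] at ht
              have := congrArg List.length ht
              simp at this
              omega
            · exfalso
              refine no_infix i w u s c3 ?_
              rw [h1] at ht
              rw [← ha, ← hb] at ht
              rw [← ht]
              simp [List.append_assoc]

end Pool.Agent.Q41.OSC.TaskParse
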