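import Pool.Agent.Q41.OSC.Stmts

namespace Pool.Agent.Q41.OSC.TaskPoint
open Filter Topology Pool.Agent.Q41.OSC

theorem win_add (x : Full) (a : ℤ) (p q : ℕ) :
    win x a (p + q) = win x a p ++ win x (a + p) q := by
  apply List.ext_getElem
  · simp [win]
  · intro i h1 h2
    rw [List.getElem_append]
    split_ifs with h
    · simp [win]
    · simp only [win, List.length_ofFn] at h ⊢
      simp only [List.getElem_ofFn]
      congr 1
      omega

theorem length_win (x : Full) (a : ℤ) (p : ℕ) : (win x a p).length = p := by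
  simp [win]

/-- the point -/
noncomputable def pt : Full := fun i => if i < 0 then none else (P i.toNat).getD i.toNat none

theorem main (h1 : TaskGrow) (h2 : TaskZP) : Pool.Agent.Q41.OSC.TaskPoint := by
  obtain ⟨-, hg, hpre⟩ := h1
  have hlen : ∀ k, k < (P k).length := by
    intro k
    have := hg k
    unfold g at this
    omega
  have hneg : ∀ i : ℤ, i < 0 → pt i = none := by
    intro i hi
    simp [pt, hi]
  have hget : ∀ (k i : ℕ) (hi : i < (P k).length), (P k)[i] = (P i).getD i none := by
    intro k i hi
    have hi' := hlen i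
    rw [List.getD_eq_getElem _ _ hi']
    rcases le_total k i with h | h
    · exact (hpre k i h).getElem hi
    · exact ((hpre i k h).getElem hi').symm
  have hwin : ∀ k : ℕ, win pt 0 (P k).length = P k := by
    intro k
    apply List.ext_getElem
    · exact length_win _ _ _
    · intro i hi1 hi2
      rw [hget k i hi2]
      simp only [win, List.getElem_ofFn]
      simp [pt]
  have hzero : ∀ M : ℕ, win pt (-(M : ℤ)) M = Z M := by
    intro M
    apply List.ext_getElem
    · rw [length_win]; simp [Z]
    · intro i hi1 hi2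
      simp only [win, List.getElem_ofFn, Z, List.getElem_replicate]
      rw [length_win] at hi1
      apply hneg
      omega
  refine ⟨pt, ?_, hneg, hwin⟩
  intro a m
  have hbig : win pt (-(a.natAbs : ℤ)) (a.natAbs + (P (a.natAbs + m)).length) =
      Z a.natAbs ++ P (a.natAbs + m) := by
    rw [win_add, hzero]
    congr 1
    have : (-(a.natAbs : ℤ) + (a.natAbs : ℕ)) = 0 := by omega
    rw [this, hwin]
  obtain ⟨j, hj⟩ := h2 a.natAbs (a.natAbs + m)
  refine ⟨j, List.IsInfix.trans ?_ hj⟩
  rw [← hbig]
  have hl := hlen (a.natAbs + m)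
  obtain ⟨r, hr⟩ : ∃ r, a.natAbs + (P (a.natAbs + m)).length = (a + a.natAbs).toNat + m + r :=
    ⟨a.natAbs + (P (a.natAbs + m)).length - ((a + a.natAbs).toNat + m), by omega⟩
  rw [hr, win_add, win_add]
  have ha : (-(a.natAbs : ℤ) + ((a + a.natAbs).toNat : ℕ)) = a := by omega
  rw [ha]
  exact ⟨_, _, rfl⟩

end Pool.Agent.Q41.OSC.TaskPoint
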