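import Pool.Agent.Q41.OSC.Stmts

set_option autoImplicit false

namespace Pool.Agent.Q41.OSC.TaskSepList
open Pool.Agent.Q41.OSC

private theorem dis_irrefl (a : Sym) : ¬ dis a a := by
  rcases a with _ | ⟨u, c⟩
  · simp [dis]
  · intro h
    simp only [dis, ne_eq, not_true_eq_false, false_and, false_or] at h
    split_ifs at h with hc
    rw [Finset.inter_self, u.2] at h
    omega

private theorem ldis_irrefl (u : List Sym) : ¬ LDis u u := by
  rintro ⟨i, a, b, ha, hb, hd⟩
  rw [ha] at hb
  cases hb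
  exact dis_irrefl _ hd

theorem main (hTr : TaskTr) : Pool.Agent.Q41.OSC.TaskSepList := by
  classical
  intro T S hT hS
  have key : ∀ x ∈ S, ∀ y ∈ S, x ≠ y → LDis (win x.1 0 T) (win y.1 0 T) := fun x hx y hy hxy =>
    (hTr T x y hT).1 (hS x hx y hy hxy)
  refine ⟨S.image fun x => win x.1 0 T, ?_, ?_, ?_⟩
  · refine Finset.card_image_of_injOn fun x hx y hy hxy => ?_
    by_contra hne
    have h := key x hx y hy hne
    have hxy' : win x.1 0 T = win y.1 0 T := hxy
    rw [hxy'] at h
    exact ldis_irrefl _ h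
  · intro u hu
    obtain ⟨x, hx, rfl⟩ := Finset.mem_image.1 hu
    exact ⟨x.2 0 T, by simp [win]⟩
  · intro u hu v hv huv
    obtain ⟨x, hx, rfl⟩ := Finset.mem_image.1 hu
    obtain ⟨y, hy, rfl⟩ := Finset.mem_image.1 hv
    exact key x hx y hy fun h => huv (by rw [h])

end Pool.Agent.Q41.OSC.TaskSepList
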