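import Pool.Agent.Q41.OSC.Stmts

set_option autoImplicit false

namespace Pool.Agent.Q41.OSC.TaskSpanList
open Pool.Agent.Q41.OSC

theorem main (hTr : Pool.Agent.Q41.OSC.TaskTr) (hExt : Pool.Agent.Q41.OSC.TaskExt) :
    Pool.Agent.Q41.OSC.TaskSpanList := by
  classical
  intro T S hT hS
  refine ⟨S.image (fun x : XX => win x.1 0 T), Finset.card_image_le, ?_, ?_⟩
  · intro u hu
    obtain ⟨x, _, rfl⟩ := Finset.mem_image.1 hu
    exact ⟨x.2 0 T, by simp [win]⟩
  · intro u hu hlen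
    obtain ⟨x, hx⟩ := hExt u hu
    obtain ⟨s, hs, hlt⟩ := hS x
    refine ⟨win s.1 0 T, Finset.mem_image.2 ⟨s, hs, rfl⟩, ?_⟩
    intro hd
    have h1 : LDis (win s.1 0 T) (win x.1 0 T) := by
      rw [hlen] at hx
      rw [hx]
      exact hd
    exact absurd ((hTr T s x hT).2 h1) (not_le.2 hlt)

end Pool.Agent.Q41.OSC.TaskSpanList
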