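import Pool.Agent.Q41.OSC.Stmts

/-!
# MP_307271_an, task `TaskSpanLow`: the windows of the blocks need different elements
-/

set_option autoImplicit false

namespace Pool.Agent.Q41.OSC.TaskSpanLow

/-- Not distinguishable. -/
def ND (a b : Sym) : Prop := ¬ dis a b

theorem toForall {s u : List Sym} (hl : s.length = u.length) (h : ¬ LDis s u) :
    List.Forall₂ ND s u := by
  rw [List.forall₂_iff_get]
  refine ⟨hl, fun i h1 h2 hd => h ⟨i, _, _, ?_, ?_, hd⟩⟩
  · rw [List.getElem?_eq_getElem h1]; rfl
  · rw [List.getElem?_eq_getElem h2]; rfl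

theorem split {s u₁ u₂ : List Sym} (h : List.Forall₂ ND s (u₁ ++ u₂)) :
    ∃ s₁ s₂, s = s₁ ++ s₂ ∧ List.Forall₂ ND s₁ u₁ ∧ List.Forall₂ ND s₂ u₂ :=
  ⟨s.take u₁.length, s.drop u₁.length, (List.take_append_drop _ _).symm,
    List.forall₂_take_append _ _ _ h, List.forall₂_drop_append _ _ _ h⟩

theorem zeros {m : ℕ} {s : List Sym} (h : List.Forall₂ ND s (Z m)) : s = Z m := by
  unfold Z at *
  induction m generalizing s with
  | zero => simpa using h
  | succ m ih =>
    rw [List.replicate_succ] at h ⊢
    cases h with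
    | cons h1 h2 =>
      rename_i a l
      rw [ih h2]
      congr 1
      cases a with
      | none => rfl
      | some x => exact absurd trivial h1

theorem phase {c : Bool} {w : List V} {s : List Sym} (h : List.Forall₂ ND s (W c w)) :
    ∃ U : List V, s = W c U ∧ List.Forall₂ (fun u v => ND (some (u, c)) (some (v, c))) U w := by
  unfold W at *
  induction w generalizing s with
  | nil =>
    refine ⟨[], ?_, List.Forall₂.nil⟩
    simpa using h
  | cons v w ih =>
    rw [List.map_cons] at h
    cases h with
    | cons h1 h2 =>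
      rename_i a l
      obtain ⟨U, hU1, hU2⟩ := ih h2
      cases a with
      | none => exact absurd trivial h1
      | some x =>
        obtain ⟨u, c'⟩ := x
        have hc : c' = c := by
          by_contra hne
          exact h1 (Or.inl hne)
        subst hc
        refine ⟨u :: U, ?_, List.Forall₂.cons h1 hU2⟩
        rw [hU1, List.map_cons]

theorem both {U w : List V}
    (h1 : List.Forall₂ (fun u v => ND (some (u, true)) (some (v, true))) U w)
    (h2 : List.Forall₂ (fun u v => ND (some (u, false)) (some (v, false))) U w) : U = w := by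
  induction h1 with
  | nil => rfl
  | cons ha _ ih =>
    rename_i a b l₁ l₂ _
    cases h2 with
    | cons hb h2' =>
      rw [ih h2']
      congr 1
      by_contra hne
      refine hb (Or.inr ?_)
      rw [if_neg (by simp)]
      by_contra hcard
      exact ha (Or.inr (by rw [if_pos rfl]; exact ⟨hne, hcard⟩))

/-- The window of `w`. -/
noncomputable def ww (k : ℕ) (w : List V) : List Sym :=
  [none] ++ W true w ++ Z (g k) ++ W false w ++ [none]

theorem ww_length (k : ℕ) (w : List V) (h : w.length = n k) :
    (ww k w).length = 2 * n k + g k + 2 := by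
  unfold ww W Z
  simp only [List.length_append, List.length_map, List.length_replicate, List.length_cons,
    List.length_nil, h]
  omega

theorem key (hP : TaskParse) (hT : TaskTokP) (k : ℕ) (w : List V) (hw : w.length = n k)
    (s : List Sym) (hs : Lang s) (hl : s.length = 2 * n k + g k + 2) (h : ¬ LDis s (ww k w)) :
    s = ww k w := by
  have hF := toForall (by rw [hl, ww_length k w hw]) h
  unfold ww at hF
  obtain ⟨s₁, s₂, hs12, hs1, hs2⟩ := split hF
  obtain ⟨s₃, s₄, hs34, hs3, hs4⟩ := split hs1
  obtain ⟨s₅, s₆, hs56, hs5, hs6⟩ := split hs3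
  obtain ⟨s₇, s₈, hs78, hs7, hs8⟩ := split hs5
  have e2 : s₂ = [none] := zeros (m := 1) hs2
  have e7 : s₇ = [none] := zeros (m := 1) hs7
  have e6 : s₆ = Z (g k) := zeros hs6
  obtain ⟨U, hU1, hU2⟩ := phase hs8
  obtain ⟨U', hU1', hU2'⟩ := phase hs4
  have hU : U.length = n k := by rw [hU2.length_eq, hw]
  have hU' : U'.length = n k := by rw [hU2'.length_eq, hw]
  have hform : s = [none] ++ W true U ++ Z (g k) ++ W false U' ++ [none] := by
    rw [hs12, hs34, hs56, hs78, e2, e7, e6, hU1, hU1']
  obtain ⟨j, hj⟩ := hs
  rw [hform] at hj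
  have hUU := hP (P j) k U U' (hT j) hU hU' hj
  subst hUU
  have hUw := both hU2 hU2'
  subst hUw
  exact hform

theorem ww_inj (k : ℕ) (a b : List V) (h : ww k a = ww k b) (hab : a.length = b.length) :
    a = b := by
  unfold ww at h
  have h1 := (List.append_inj' h rfl).1
  have h2 := (List.append_inj' h1 (by simp [W, hab])).1
  have h3 := (List.append_inj' h2 rfl).1
  have h4 := (List.append_inj' h3 (by simp [W, hab])).2
  unfold W at h4
  refine List.map_injective_iff.2 ?_ h4
  intro x y hxy
  simpa using hxy

theorem main (hP : TaskParse) (hT : TaskTokP) (hB : TaskBlk) :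
    Pool.Agent.Q41.OSC.TaskSpanLow := by
  intro k S hS hspan
  have hex : ∀ w : Fin (n k) → V, ∃ s ∈ S, s = ww k (List.ofFn w) := by
    intro w
    have hlen : (List.ofFn w).length = n k := List.length_ofFn
    obtain ⟨s, hsS, hs⟩ := hspan (ww k (List.ofFn w)) (hB k _ hlen) (ww_length k _ hlen)
    exact ⟨s, hsS, key hP hT k _ hlen s (hS s hsS).1 (hS s hsS).2 hs⟩
  have hmem : ∀ w : Fin (n k) → V, ww k (List.ofFn w) ∈ S := by
    intro w
    obtain ⟨s, hsS, rfl⟩ := hex w
    exact hsS
  have hV : Fintype.card V = 84 := by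
    have h := Fintype.card_finset_len (α := Fin 9) 3
    rw [Fintype.card_fin] at h
    exact h
  have hcard : Fintype.card (Fin (n k) → V) = 84 ^ n k := by
    rw [Fintype.card_fun, Fintype.card_fin, hV]
  rw [← hcard, ← Finset.card_univ]
  refine Finset.card_le_card_of_injOn (fun w => ww k (List.ofFn w)) (fun w _ => hmem w) ?_
  intro a _ b _ hab
  exact List.ofFn_injective (ww_inj k _ _ hab (by simp))

end Pool.Agent.Q41.OSC.TaskSpanLow
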