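import Pool.Agent.Q41.OSC.Stmts

/-! Blueprint for MP_307271_an, Q1: TaskTokP. -/

namespace Pool.Agent.Q41.OSC.TaskTokP
open Pool.Agent.Q41.OSC

theorem tok_nil : Tok [] := ⟨[], rfl, by simp⟩

theorem tok_append {A B : List Sym} (hA : Tok A) (hB : Tok B) : Tok (A ++ B) := by
  obtain ⟨l, rfl, hl⟩ := hA
  obtain ⟨l', rfl, hl'⟩ := hB
  refine ⟨l ++ l', by simp, ?_⟩
  intro t ht
  rcases List.mem_append.mp ht with h | h
  · exact hl t h
  · exact hl' t h

theorem tok_single {t : List Sym} (h : t = [none] ∨
    ∃ (i : ℕ) (w : List V), w.length = n i ∧ t = W true w ++ Z (g i) ++ W false w ++ [none]) :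
    Tok t :=
  ⟨[t], by simp, by intro s hs; rw [List.mem_singleton] at hs; rw [hs]; exact h⟩

theorem tok_Z (m : ℕ) : Tok (Z m) := by
  induction m with
  | zero => exact tok_nil
  | succ m ih =>
    have : Z (m + 1) = [none] ++ Z m := by
      simp [Z, List.replicate_succ]
    rw [this]
    exact tok_append (tok_single (Or.inl rfl)) ih

theorem tok_blk (k : ℕ) (w : List V) (hw : w.length = n k) : Tok (blk (g k) w) := by
  have hg : Z (g k) = [none] ++ Z ((P k).length) := by
    simp [Z, g, List.replicate_succ]
  have : blk (g k) w = (W true w ++ Z (g k) ++ W false w ++ [none]) ++ Z ((P k).length) := by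
    unfold blk
    conv_lhs => rw [List.append_assoc _ _ (Z (g k))]
    conv_lhs => rhs; rhs; rw [hg]
    simp [List.append_assoc]
  rw [this]
  exact tok_append (tok_single (Or.inr ⟨k, w, hw, rfl⟩)) (tok_Z _)

theorem tok_flat (k : ℕ) (ws : List (List V)) (hws : ∀ w ∈ ws, w.length = n k) :
    Tok (ws.flatMap (blk (g k))) := by
  induction ws with
  | nil => exact tok_nil
  | cons w ws ih =>
    rw [List.flatMap_cons]
    exact tok_append (tok_blk k w (hws w (by simp))) (ih fun w' h => hws w' (by simp [h]))

theorem words_len (m : ℕ) : ∀ w ∈ words m, w.length = m := by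
  intro w hw
  unfold words at hw
  obtain ⟨f, _, rfl⟩ := List.mem_map.mp hw
  simp

theorem main : Pool.Agent.Q41.OSC.TaskTokP := by
  intro k
  induction k with
  | zero => exact tok_single (Or.inl rfl)
  | succ k ih =>
    show Tok (step (P k))
    unfold step
    exact tok_append (tok_append (tok_append ih (tok_Z _))
      (tok_flat k _ (words_len (n k)))) ih

end Pool.Agent.Q41.OSC.TaskTokP
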