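import Pool.Agent.Q41.OSC.Stmts

set_option autoImplicit false

namespace Pool.Agent.Q41.OSC.TaskTr

open Pool.Agent.Q41.OSC

theorem iter (t : ℕ) : ∀ (x : XX) (m : ℤ), (shX^[t] x).1 m = x.1 (m + t) := by
  induction t with
  | zero =>
    intro x m
    simp
  | succ t ih =>
    intro x m
    rw [Function.iterate_succ_apply, ih]
    have h : m + (t : ℤ) + 1 = m + ((t + 1 : ℕ) : ℤ) := by
      push_cast
      ring
    rw [← h]
    rfl

theorem get_win (x : Full) (T i : ℕ) (a : Sym) :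
    (win x 0 T)[i]? = some a ↔ i < T ∧ a = x i := by
  unfold win
  rw [List.getElem?_ofFn]
  by_cases h : i < T
  · rw [dif_pos h]
    simp only [Option.some.injEq, zero_add, h, true_and]
    exact eq_comm
  · rw [dif_neg h]
    simp [h]

theorem main (h1 : TaskDT) (h2 : TaskOne) : Pool.Agent.Q41.OSC.TaskTr := by
  intro T x y hT
  rw [(h1 XX shX 1 T x y hT).1]
  have key : ∀ t : ℕ, 1 ≤ dist (shX^[t] x) (shX^[t] y) ↔ dis (x.1 t) (y.1 t) := by
    intro t
    have h3 := h2 (shX^[t] x).1 (shX^[t] y).1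
    rw [iter, iter, zero_add] at h3
    exact h3
  constructor
  · rintro ⟨t, ht, h⟩
    exact ⟨t, x.1 t, y.1 t, (get_win _ _ _ _).2 ⟨ht, rfl⟩, (get_win _ _ _ _).2 ⟨ht, rfl⟩,
      (key t).1 h⟩
  · rintro ⟨i, a, b, ha, hb, hd⟩
    obtain ⟨hi, rfl⟩ := (get_win _ _ _ _).1 ha
    obtain ⟨-, rfl⟩ := (get_win _ _ _ _).1 hb
    exact ⟨i, hi, (key i).2 hd⟩

end Pool.Agent.Q41.OSC.TaskTr
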