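import Pool.Agent.Q41.OSC.Stmts

set_option autoImplicit false

namespace Pool.Agent.Q41.OSC.TaskWord

open Pool.Agent.Q41.OSC

theorem infix_append {α : Type*} {u A B : List α} (h : u <:+: A ++ B) :
    u <:+: A ∨ u <:+: B ∨ ∃ u1 u2, u = u1 ++ u2 ∧ u1 <:+ A ∧ u2 <+: B := by
  obtain ⟨s, t, h⟩ := h
  rcases List.append_eq_append_iff.1 h with ⟨a', h1, h2⟩ | ⟨c', h1, h2⟩
  · exact Or.inl ⟨s, a', h1.symm⟩
  · rcases List.append_eq_append_iff.1 h1 with ⟨b, h3, h4⟩ | ⟨b, h3, h4⟩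
    · exact Or.inr (Or.inr ⟨b, c', h4, ⟨s, h3.symm⟩, ⟨t, h2.symm⟩⟩)
    · exact Or.inr (Or.inl ⟨b, t, by rw [h2, h4]⟩)

theorem sub_Z {T : ℕ} {u : List Sym} (h : u.Sublist (Z T)) : ∃ p, u = Z p := by
  obtain ⟨p, -, hp⟩ := List.sublist_replicate_iff.1 h
  exact ⟨p, hp⟩

theorem sub_W {c : Bool} {w : List V} {u : List Sym} (h : u.Sublist (W c w)) :
    ∃ w', u = W c w' := by
  obtain ⟨w', -, hw⟩ := List.sublist_map_iff.1 h
  exact ⟨w', hw⟩

theorem main : Pool.Agent.Q41.OSC.TaskWord := by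
  intro T Q c w hT u hu hlen
  right
  rcases infix_append hu with h | h | ⟨u1, u2, rfl, h1, h2⟩
  · rcases infix_append h with h | h | ⟨u1, u2, rfl, h1, h2⟩
    · obtain ⟨p, rfl⟩ := sub_Z h.sublist
      exact ⟨c, p, [], Or.inl (by simp [W])⟩
    · obtain ⟨w', rfl⟩ := sub_W h.sublist
      exact ⟨c, 0, w', Or.inl (by simp [Z])⟩
    · obtain ⟨p, rfl⟩ := sub_Z h1.sublist
      obtain ⟨w', rfl⟩ := sub_W h2.sublist
      exact ⟨c, p, w', Or.inl rfl⟩
  · obtain ⟨p, rfl⟩ := sub_Z h.sublist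
    exact ⟨c, p, [], Or.inl (by simp [W])⟩
  · obtain ⟨q, rfl⟩ := sub_Z h2.sublist
    have h3 : u1 <:+ W c w := by
      refine List.suffix_of_suffix_length_le h1 (List.suffix_append _ _) ?_
      rw [List.length_append] at hlen
      have : (W c w).length = w.length := by simp [W]
      omega
    obtain ⟨w', rfl⟩ := sub_W h3.sublist
    exact ⟨c, q, w', Or.inr rfl⟩

end Pool.Agent.Q41.OSC.TaskWord
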