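import Pool.Agent.Q41.OSC.Stmts

set_option autoImplicit false

namespace Pool.Agent.Q41.OSC.TaskZP

open Pool.Agent.Q41.OSC

theorem words_ne_nil (m : ℕ) : words m ≠ [] := by
  unfold words
  intro h
  have h1 := List.map_eq_nil_iff.1 h
  rw [Finset.toList_eq_nil] at h1
  have h2 : (fun _ : Fin m => (⟨{0, 1, 2}, by decide⟩ : V)) ∈
      (Finset.univ : Finset (Fin m → V)) := Finset.mem_univ _
  rw [h1] at h2
  exact absurd h2 (Finset.notMem_empty _)

theorem main (hG : TaskGrow) : Pool.Agent.Q41.OSC.TaskZP := by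
  obtain ⟨_, h2, h3⟩ := hG
  intro m k
  set j := max m k with hj
  obtain ⟨t, ht⟩ := h3 k j (le_max_right _ _)
  have hm : m ≤ g j := le_trans (le_max_left m k) (le_trans (Nat.le_add_right _ 2) (h2 j))
  have hZ : Z (g j) = Z (g j - m) ++ Z m := by
    unfold Z
    rw [← List.replicate_add]
    congr 1
    omega
  refine ⟨j + 1, ?_⟩
  rcases List.eq_nil_or_concat (words (((P j).length + 1) ^ 2)) with h | ⟨ws, w0, h⟩
  · exact absurd h (words_ne_nil _)
  · have hP : P (j + 1) = P j ++ Z (g j) ++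
        (ws.flatMap (blk (g j)) ++ (W true w0 ++ Z (g j) ++ W false w0 ++ Z (g j))) ++ P j := by
      show step (P j) = _
      unfold step
      rw [h]
      simp [List.flatMap_append, blk, g]
    refine ⟨P j ++ Z (g j) ++ ws.flatMap (blk (g j)) ++ W true w0 ++ Z (g j) ++ W false w0 ++
      Z (g j - m), t, ?_⟩
    have e1 : P j = P k ++ t := ht.symm
    calc _ = P j ++ Z (g j) ++ ws.flatMap (blk (g j)) ++ W true w0 ++ Z (g j) ++ W false w0 ++
          ((Z (g j - m) ++ Z m) ++ (P k ++ t)) := by simp only [List.append_assoc]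
      _ = P j ++ Z (g j) ++ ws.flatMap (blk (g j)) ++ W true w0 ++ Z (g j) ++ W false w0 ++
          (Z (g j) ++ P j) := by rw [← hZ, ← e1]
      _ = _ := by rw [hP]; simp only [List.append_assoc]

end Pool.Agent.Q41.OSC.TaskZP
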